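import Pool.Agent.W8.ST.Stm

/-!
Project ST (helper8), part ST-Pro2: the second group acts freely, properly and cocompactly.
-/

open Pool.Agent.W8.ST

namespace Pool.Agent.W767.ST

noncomputable section

/-- integer translates of a number which are close to zero are zero -/
theorem gapZ (a c : ℝ) (hc : 0 < c) :
    ∃ d : ℝ, 0 < d ∧ ∀ n : ℤ, |a + c * n| < d → a + c * n = 0 := by
  by_cases h : ∃ n0 : ℤ, a + c * n0 = 0
  · obtain ⟨n0, hn0⟩ := h
    refine ⟨c, hc, fun n hn => ?_⟩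
    have e : a + c * n = c * ((n - n0 : ℤ) : ℝ) := by push_cast; linarith
    rw [e, abs_mul, abs_of_pos hc] at hn
    have h1 : |((n - n0 : ℤ) : ℝ)| < 1 := by
      by_contra hcon
      push Not at hcon
      nlinarith
    have h2 : |n - n0| < 1 := by exact_mod_cast h1
    have h3 : n - n0 = 0 := Int.abs_lt_one_iff.mp h2
    rw [e, h3]; simp
  · push Not at h
    set N : ℤ := ⌊-a / c⌋ with hN
    have h1 : (N : ℝ) ≤ -a / c := Int.floor_le _
    have h2 : -a / c < N + 1 := Int.lt_floor_add_one _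
    have h1' : a + c * N ≤ 0 := by
      have := (le_div_iff₀ hc).mp h1
      linarith
    have h1'' : a + c * N < 0 := lt_of_le_of_ne h1' (h N)
    have h2' : 0 < a + c * (N + 1) := by
      have := (div_lt_iff₀ hc).mp h2
      linarith
    refine ⟨min (-(a + c * N)) (a + c * (N + 1)), lt_min (by linarith) h2', fun n hn => ?_⟩
    exfalso
    rcases le_or_gt n N with hle | hgt
    · have h3 : (n : ℝ) ≤ N := by exact_mod_cast hle
      have h4 : c * n ≤ c * N := mul_le_mul_of_nonneg_left h3 hc.le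
      have h5 := (lt_of_lt_of_le hn (min_le_left _ _))
      have h6 := neg_abs_le (a + c * n)
      linarith
    · have h3 : (N : ℝ) + 1 ≤ n := by exact_mod_cast hgt
      have h4 : c * (N + 1) ≤ c * n := mul_le_mul_of_nonneg_left h3 hc.le
      have h5 := (lt_of_lt_of_le hn (min_le_right _ _))
      have h6 := le_abs_self (a + c * n)
      linarith

theorem sgn (n : ℤ) : ((-1 : ℝ) ^ n = 1) ∨ ((-1 : ℝ) ^ n = -1) := by
  rcases Int.even_or_odd n with h | h
  · left; exact h.neg_one_zpow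
  · right; exact h.neg_one_zpow

theorem gam2_0 (m n k : ℤ) (x : V 4) : gam2 m n k x 0 = x 0 := rfl
theorem gam2_1 (m n k : ℤ) (x : V 4) : gam2 m n k x 1 = x 1 + Real.pi * n := rfl
theorem gam2_2 (m n k : ℤ) (x : V 4) :
    gam2 m n k x 2 = (-1 : ℝ) ^ n * x 2 + 2 * Real.pi * m := rfl
theorem gam2_3 (m n k : ℤ) (x : V 4) :
    gam2 m n k x 3 = (-1 : ℝ) ^ n * x 3 + 2 * Real.pi * k := rfl

theorem free2 (m n k : ℤ) (x : V 4) (h : gam2 m n k x = x) : m = 0 ∧ n = 0 ∧ k = 0 := by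
  have hpi := Real.pi_pos
  have h1 : gam2 m n k x 1 = x 1 := by rw [h]
  have h2 : gam2 m n k x 2 = x 2 := by rw [h]
  have h3 : gam2 m n k x 3 = x 3 := by rw [h]
  rw [gam2_1] at h1
  rw [gam2_2] at h2
  rw [gam2_3] at h3
  have hn : Real.pi * n = 0 := by linarith
  have hn' : (n : ℝ) = 0 := by
    rcases mul_eq_zero.mp hn with h | h
    · exact absurd h hpi.ne'
    · exact h
  have hn'' : n = 0 := by exact_mod_cast hn'
  subst hn''
  simp only [zpow_zero, one_mul] at h2 h3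
  have hm : 2 * Real.pi * (m : ℝ) = 0 := by linarith
  have hk : 2 * Real.pi * (k : ℝ) = 0 := by linarith
  have h2pi : (2 * Real.pi) ≠ 0 := by positivity
  have hm' : (m : ℝ) = 0 := (mul_eq_zero.mp hm).resolve_left h2pi
  have hk' : (k : ℝ) = 0 := (mul_eq_zero.mp hk).resolve_left h2pi
  exact ⟨by exact_mod_cast hm', rfl, by exact_mod_cast hk'⟩

theorem distle (m n k : ℤ) (x x' : V 4) (d : ℝ) (hd : dist x x' < d) :
    dist (gam2 m n k x) (gam2 m n k x') < d := by
  have hd0 : 0 < d := lt_of_le_of_lt dist_nonneg hd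
  rw [dist_pi_lt_iff hd0] at hd ⊢
  have hs : |(-1 : ℝ) ^ n| = 1 := by
    rcases sgn n with h | h <;> rw [h] <;> simp
  intro i
  have h0 := hd 0
  have h1 := hd 1
  have h2 := hd 2
  have h3 := hd 3
  rw [Real.dist_eq] at h0 h1 h2 h3
  fin_cases i
  · show dist (gam2 m n k x 0) (gam2 m n k x' 0) < d
    rw [gam2_0, gam2_0, Real.dist_eq]; exact h0
  · show dist (gam2 m n k x 1) (gam2 m n k x' 1) < d
    rw [gam2_1, gam2_1, Real.dist_eq]
    have e : x 1 + Real.pi * n - (x' 1 + Real.pi * n) = x 1 - x' 1 := by ring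
    rw [e]; exact h1
  · show dist (gam2 m n k x 2) (gam2 m n k x' 2) < d
    rw [gam2_2, gam2_2, Real.dist_eq]
    have e : (-1 : ℝ) ^ n * x 2 + 2 * Real.pi * m - ((-1 : ℝ) ^ n * x' 2 + 2 * Real.pi * m) =
      (-1 : ℝ) ^ n * (x 2 - x' 2) := by ring
    rw [e, abs_mul, hs, one_mul]; exact h2
  · show dist (gam2 m n k x 3) (gam2 m n k x' 3) < d
    rw [gam2_3, gam2_3, Real.dist_eq]
    have e : (-1 : ℝ) ^ n * x 3 + 2 * Real.pi * k - ((-1 : ℝ) ^ n * x' 3 + 2 * Real.pi * k) =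
      (-1 : ℝ) ^ n * (x 3 - x' 3) := by ring
    rw [e, abs_mul, hs, one_mul]; exact h3

theorem gapV (x y : V 4) : ∃ d : ℝ, 0 < d ∧ ∀ m n k : ℤ, dist (gam2 m n k x) y < d →
    gam2 m n k x = y := by
  have hpi := Real.pi_pos
  have h2pi : 0 < 2 * Real.pi := by positivity
  obtain ⟨d0, hd0, e0⟩ := gapZ (x 0 - y 0) 1 one_pos
  obtain ⟨d1, hd1, e1⟩ := gapZ (x 1 - y 1) Real.pi hpi
  obtain ⟨d2, hd2, e2⟩ := gapZ (x 2 - y 2) (2 * Real.pi) h2pi
  obtain ⟨d3, hd3, e3⟩ := gapZ (-x 2 - y 2) (2 * Real.pi) h2pi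
  obtain ⟨d4, hd4, e4⟩ := gapZ (x 3 - y 3) (2 * Real.pi) h2pi
  obtain ⟨d5, hd5, e5⟩ := gapZ (-x 3 - y 3) (2 * Real.pi) h2pi
  obtain ⟨d, hd, hdl⟩ : ∃ d : ℝ, 0 < d ∧ d ≤ d0 ∧ d ≤ d1 ∧ d ≤ d2 ∧ d ≤ d3 ∧ d ≤ d4 ∧ d ≤ d5 := by
    refine ⟨min d0 (min d1 (min d2 (min d3 (min d4 d5)))), ?_, ?_⟩
    · simp only [lt_min_iff]
      exact ⟨hd0, hd1, hd2, hd3, hd4, hd5⟩
    · have := le_refl (min d0 (min d1 (min d2 (min d3 (min d4 d5)))))
      simp only [le_min_iff] at this
      exact ⟨this.1, this.2.1, this.2.2.1, this.2.2.2.1, this.2.2.2.2.1, this.2.2.2.2.2⟩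
  obtain ⟨l0, l1, l2, l3, l4, l5⟩ := hdl
  refine ⟨d, hd, fun m n k h => ?_⟩
  rw [dist_pi_lt_iff hd] at h
  have h0 := h 0
  have h1 := h 1
  have h2 := h 2
  have h3 := h 3
  rw [gam2_0, Real.dist_eq] at h0
  rw [gam2_1, Real.dist_eq] at h1
  rw [gam2_2, Real.dist_eq] at h2
  rw [gam2_3, Real.dist_eq] at h3
  have f0 : x 0 = y 0 := by
    have := e0 0 (by simpa using lt_of_lt_of_le h0 l0)
    simp at this; linarith
  have f1 : x 1 + Real.pi * n = y 1 := by
    have := e1 n (by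
      have e : x 1 - y 1 + Real.pi * n = x 1 + Real.pi * n - y 1 := by ring
      rw [e]; exact lt_of_lt_of_le h1 l1)
    linarith
  have f2 : (-1 : ℝ) ^ n * x 2 + 2 * Real.pi * m = y 2 := by
    rcases sgn n with hs | hs
    · rw [hs] at h2 ⊢
      have := e2 m (by
        have e : x 2 - y 2 + 2 * Real.pi * m = 1 * x 2 + 2 * Real.pi * m - y 2 := by ring
        rw [e]; exact lt_of_lt_of_le h2 l2)
      linarith
    · rw [hs] at h2 ⊢
      have := e3 m (by
        have e : -x 2 - y 2 + 2 * Real.pi * m = -1 * x 2 + 2 * Real.pi * m - y 2 := by ring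
        rw [e]; exact lt_of_lt_of_le h2 l3)
      linarith
  have f3 : (-1 : ℝ) ^ n * x 3 + 2 * Real.pi * k = y 3 := by
    rcases sgn n with hs | hs
    · rw [hs] at h3 ⊢
      have := e4 k (by
        have e : x 3 - y 3 + 2 * Real.pi * k = 1 * x 3 + 2 * Real.pi * k - y 3 := by ring
        rw [e]; exact lt_of_lt_of_le h3 l4)
      linarith
    · rw [hs] at h3 ⊢
      have := e5 k (by
        have e : -x 3 - y 3 + 2 * Real.pi * k = -1 * x 3 + 2 * Real.pi * k - y 3 := by ring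
        rw [e]; exact lt_of_lt_of_le h3 l5)
      linarith
  funext i
  fin_cases i
  · exact f0
  · exact f1
  · exact f2
  · exact f3

/-- every number has a translate in the fundamental interval -/
theorem red (a c : ℝ) (hc : 0 < c) : ∃ n : ℤ, 0 ≤ a + c * n ∧ a + c * n ≤ c := by
  refine ⟨-⌊a / c⌋, ?_, ?_⟩
  · have h := Int.floor_le (a / c)
    have := (le_div_iff₀ hc).mp h
    push_cast; linarith
  · have h := Int.lt_floor_add_one (a / c)
    have := (div_lt_iff₀ hc).mp h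
    push_cast; linarith

/-- ST-Pro2 -/
theorem Pro2_proof : Pro2 := by
  intro hD
  have hM := hD.2.2.1
  have hE := hD.2.2.2
  refine ⟨?_, ?_, ?_⟩
  · intro γ hγ x _ hx
    obtain ⟨m, n, k, h⟩ := hM γ hγ
    rw [h x] at hx
    obtain ⟨rfl, rfl, rfl⟩ := free2 m n k x hx
    apply Equiv.ext
    intro y
    rw [h y, Equiv.Perm.one_apply]
    funext i
    fin_cases i
    · rfl
    · show gam2 0 0 0 y 1 = y 1
      rw [gam2_1]; simp
    · show gam2 0 0 0 y 2 = y 2
      rw [gam2_2]; simp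
    · show gam2 0 0 0 y 3 = y 3
      rw [gam2_3]; simp
  · intro x _ y _
    obtain ⟨d, hd, hgap⟩ := gapV x y
    refine ⟨Metric.ball x (d / 3), Metric.ball y (d / 3), Metric.isOpen_ball, Metric.isOpen_ball,
      Metric.mem_ball_self (by linarith), Metric.mem_ball_self (by linarith), ?_⟩
    intro γ hγ hne
    obtain ⟨m, n, k, h⟩ := hM γ hγ
    rw [Set.disjoint_left]
    rintro z ⟨x', hx', rfl⟩ hz
    rw [Metric.mem_ball] at hx' hz
    apply hne
    rw [h x]
    apply hgap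
    rw [h x'] at hz
    have h1 : dist (gam2 m n k x) (gam2 m n k x') < d / 3 :=
      distle m n k x x' _ (by rw [dist_comm]; exact hx')
    have h2 := dist_triangle (gam2 m n k x) (gam2 m n k x') y
    linarith
  · refine ⟨Set.Icc (fun _ => (-10 : ℝ)) (fun _ => (10 : ℝ)), isCompact_Icc, ?_⟩
    intro x hx
    have hpi := Real.pi_pos
    have hpi4 := Real.pi_le_four
    have hpi3 := Real.pi_lt_d2
    obtain ⟨n, hn0, hn1⟩ := red (x 1) Real.pi hpi
    obtain ⟨m, hm0, hm1⟩ := red ((-1 : ℝ) ^ n * x 2) (2 * Real.pi) (by positivity)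
    obtain ⟨k, hk0, hk1⟩ := red ((-1 : ℝ) ^ n * x 3) (2 * Real.pi) (by positivity)
    obtain ⟨γ, hγ, h⟩ := hE m n k
    have hx0 : |x 0| ≤ 1 := hx
    have hx1 := abs_le.mp hx0
    refine ⟨γ, hγ, ?_⟩
    rw [h x]
    constructor
    · intro i
      fin_cases i
      · show (-10 : ℝ) ≤ gam2 m n k x 0
        rw [gam2_0]; linarith
      · show (-10 : ℝ) ≤ gam2 m n k x 1
        rw [gam2_1]; linarith
      · show (-10 : ℝ) ≤ gam2 m n k x 2
        rw [gam2_2]; linarith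
      · show (-10 : ℝ) ≤ gam2 m n k x 3
        rw [gam2_3]; linarith
    · intro i
      fin_cases i
      · show gam2 m n k x 0 ≤ (10 : ℝ)
        rw [gam2_0]; linarith
      · show gam2 m n k x 1 ≤ (10 : ℝ)
        rw [gam2_1]; linarith
      · show gam2 m n k x 2 ≤ (10 : ℝ)
        rw [gam2_2]; linarith
      · show gam2 m n k x 3 ≤ (10 : ℝ)
        rw [gam2_3]; linarith

end

end Pool.Agent.W767.ST
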